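import Pool.Agent.H99.HN.Targets
import Pool.Agent.H38.HM.Dens

/-! Module DENS2: density of test functions in the graph norm of the Laplacian. -/

set_option autoImplicit false

namespace Pool.Agent.H56.HN

open MeasureTheory Set Filter Topology Real
open scoped ContDiff ENNReal Convolution
open Pool.Agent.H99.HM Pool.Agent.H99.HN Pool.Agent.H38.HM

/-- second derivatives of the cut-off -/
theorem cut_fderiv2 : ∃ C : ℝ, 0 ≤ C ∧ ∀ (n : ℕ) (i : Fin 3) (x : E3),
    |pd i (pd i (cut n)) x| ≤ C / ((n : ℝ) + 1) := by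
  have key : ∀ i : Fin 3, ∃ C : ℝ, 0 ≤ C ∧ ∀ (n : ℕ) (x : E3),
      |pd i (pd i (cut n)) x| ≤ C / ((n : ℝ) + 1) := by
    intro i
    set F : E3 → ℝ := pd i (cb : E3 → ℝ) with hF
    have hFs : ContDiff ℝ 1 F := by
      have h := (cb.contDiff (n := 2)).fderiv_right (m := 1) (by norm_num)
      exact h.clm_apply contDiff_const
    have h1 : Continuous (fderiv ℝ F) := hFs.continuous_fderiv (by norm_num)
    have h2 : HasCompactSupport F :=
      (cb.hasCompactSupport.fderiv (𝕜 := ℝ)).comp_left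
        (g := fun L : E3 →L[ℝ] ℝ => L (EuclideanSpace.single i 1)) (by simp)
    obtain ⟨C, hC⟩ := h1.bounded_above_of_compact_support (h2.fderiv (𝕜 := ℝ))
    refine ⟨C, (norm_nonneg _).trans (hC 0), fun n x => ?_⟩
    have h3 : pd i (cut n) = fun x => (1 / ((n : ℝ) + 1)) * F ((1 / ((n : ℝ) + 1)) • x) := by
      ext x
      have h3 : HasFDerivAt (cut n) ((fderiv ℝ (cb : E3 → ℝ) ((1 / ((n : ℝ) + 1)) • x)).comp
          ((1 / ((n : ℝ) + 1)) • ContinuousLinearMap.id ℝ E3)) x := by
        apply HasFDerivAt.comp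
        · exact ((cb.contDiff (n := 1)).differentiable (by norm_num)).differentiableAt.hasFDerivAt
        · exact ((1 / ((n : ℝ) + 1)) • ContinuousLinearMap.id ℝ E3).hasFDerivAt
      unfold pd at hF ⊢
      rw [h3.fderiv, ContinuousLinearMap.comp_apply, smul_apply,
        ContinuousLinearMap.id_apply, map_smul, smul_eq_mul, hF]
    have h4 : HasFDerivAt (fun x => (1 / ((n : ℝ) + 1)) * F ((1 / ((n : ℝ) + 1)) • x))
        ((1 / ((n : ℝ) + 1)) • ((fderiv ℝ F ((1 / ((n : ℝ) + 1)) • x)).comp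
          ((1 / ((n : ℝ) + 1)) • ContinuousLinearMap.id ℝ E3))) x := by
      apply HasFDerivAt.const_mul
      refine HasFDerivAt.comp (g := F) (f := fun y : E3 => (1 / ((n : ℝ) + 1)) • y) x ?_ ?_
      · exact (hFs.differentiable (by norm_num)).differentiableAt.hasFDerivAt
      · exact ((1 / ((n : ℝ) + 1)) • ContinuousLinearMap.id ℝ E3).hasFDerivAt
    have h5 : pd i (pd i (cut n)) x = (1 / ((n : ℝ) + 1)) * ((1 / ((n : ℝ) + 1)) *
        (fderiv ℝ F ((1 / ((n : ℝ) + 1)) • x) (EuclideanSpace.single i 1))) := by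
      rw [h3]
      conv_lhs => unfold pd
      rw [h4.fderiv, smul_apply, ContinuousLinearMap.comp_apply, smul_apply,
        ContinuousLinearMap.id_apply, map_smul, smul_eq_mul, smul_eq_mul]
    rw [h5, abs_mul, abs_mul, abs_of_pos (by positivity : (0:ℝ) < 1 / ((n : ℝ) + 1))]
    have h6 : |fderiv ℝ F ((1 / ((n : ℝ) + 1)) • x) (EuclideanSpace.single i 1)| ≤ C := by
      have := (fderiv ℝ F ((1 / ((n : ℝ) + 1)) • x)).le_opNorm (EuclideanSpace.single i (1 : ℝ))
      rw [Real.norm_eq_abs] at this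
      refine this.trans ?_
      simp only [EuclideanSpace.norm_single, norm_one, mul_one]
      exact hC _
    have h7 : 1 / ((n : ℝ) + 1) ≤ 1 := by
      rw [div_le_one (by positivity)]
      linarith [Nat.cast_nonneg (α := ℝ) n]
    have h8 : 0 < 1 / ((n : ℝ) + 1) := by positivity
    calc 1 / ((n : ℝ) + 1) * (1 / ((n : ℝ) + 1) *
          |fderiv ℝ F ((1 / ((n : ℝ) + 1)) • x) (EuclideanSpace.single i 1)|)
        ≤ 1 / ((n : ℝ) + 1) * (1 * C) := by
          apply mul_le_mul_of_nonneg_left _ h8.le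
          exact mul_le_mul h7 h6 (abs_nonneg _) zero_le_one
      _ = C / ((n : ℝ) + 1) := by ring
  choose C hC0 hC using key
  refine ⟨∑ i, C i, Finset.sum_nonneg fun i _ => hC0 i, fun n i x => (hC i n x).trans ?_⟩
  gcongr
  exact Finset.single_le_sum (f := C) (fun j _ => hC0 j) (Finset.mem_univ i)

/-- divergence of the mollified gradient -/
theorem div_mol {u : E3 → ℂ} {G : Fin 3 → E3 → ℂ} {g : E3 → ℂ} (h : IsH1 u G)
    (hg : ∀ φ, IsTest φ → ∑ i, ∫ x, (pd i φ x : ℂ) * G i x = ∫ x, (φ x : ℂ) * g x)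
    (m : ℕ) (x : E3) :
    ∑ i, fderiv ℝ (mol (rh m) (G i)) x (EuclideanSpace.single i 1) = - mol (rh m) g x := by
  set φ : E3 → ℝ := fun t => rh m (x - t) with hφ
  have hs : ContDiff ℝ ∞ φ := (rh_smooth m).comp (contDiff_const.sub contDiff_id)
  have hc : HasCompactSupport φ := (rh_cpt m).comp_homeomorph (Homeomorph.subLeft x)
  have hpd : ∀ i t, pd i φ t = - fderiv ℝ (rh m) (x - t) (EuclideanSpace.single i 1) := by
    intro i t
    unfold pd
    have h3 : HasFDerivAt φ ((fderiv ℝ (rh m) (x - t)).comp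
        (-ContinuousLinearMap.id ℝ E3)) t := by
      apply HasFDerivAt.comp
      · exact ((rh_smooth m).differentiable (by simp)).differentiableAt.hasFDerivAt
      · exact (hasFDerivAt_id t).const_sub x
    rw [h3.fderiv]
    simp
  have hw := hg φ ⟨hs, hc⟩
  have e1 : ∀ i, fderiv ℝ (mol (rh m) (G i)) x (EuclideanSpace.single i 1) =
      - ∫ t, (pd i φ t : ℂ) * G i t := by
    intro i
    rw [fderiv_mol (rh_smooth m) (rh_cpt m) ((h.memLp_grad i).locallyIntegrable (by norm_num)),
      ← integral_neg]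
    apply integral_congr_ae
    refine Filter.Eventually.of_forall (fun t => ?_)
    simp only [hpd, Complex.real_smul]
    push_cast
    ring
  simp only [e1, Finset.sum_neg_distrib]
  rw [hw, mol_eq]
  simp only [hφ, Complex.real_smul]

/-- first derivatives of the approximants -/
noncomputable def W1 (u : E3 → ℂ) (G : Fin 3 → E3 → ℂ) (n : ℕ) (i : Fin 3) (x : E3) : ℂ :=
  cut n x • mol (rh n) (G i) x + pd i (cut n) x • mol (rh n) u x

theorem pd_cut_smooth (n : ℕ) (i : Fin 3) : ContDiff ℝ ∞ (pd i (cut n)) := by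
  have h := (cut_smooth n).fderiv_right (m := ∞) (by simp)
  exact h.clm_apply contDiff_const

theorem pd_re {f : E3 → ℂ} (hf : ContDiff ℝ ∞ f) (i : Fin 3) (x : E3) :
    pd i (fun x => (f x).re) x = (fderiv ℝ f x (EuclideanSpace.single i 1)).re := by
  have hd : HasFDerivAt f (fderiv ℝ f x) x :=
    (hf.differentiable (by simp)).differentiableAt.hasFDerivAt
  have h1 : HasFDerivAt (fun x => (f x).re) (Complex.reCLM.comp (fderiv ℝ f x)) x :=
    Complex.reCLM.hasFDerivAt.comp x hd
  unfold pd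
  rw [h1.fderiv]
  simp only [ContinuousLinearMap.comp_apply, Complex.reCLM_apply]

theorem pd_im {f : E3 → ℂ} (hf : ContDiff ℝ ∞ f) (i : Fin 3) (x : E3) :
    pd i (fun x => (f x).im) x = (fderiv ℝ f x (EuclideanSpace.single i 1)).im := by
  have hd : HasFDerivAt f (fderiv ℝ f x) x :=
    (hf.differentiable (by simp)).differentiableAt.hasFDerivAt
  have h1 : HasFDerivAt (fun x => (f x).im) (Complex.imCLM.comp (fderiv ℝ f x)) x :=
    Complex.imCLM.hasFDerivAt.comp x hd
  unfold pd
  rw [h1.fderiv]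
  simp only [ContinuousLinearMap.comp_apply, Complex.imCLM_apply]

theorem W1_smooth {u : E3 → ℂ} {G : Fin 3 → E3 → ℂ} (h : IsH1 u G) (n : ℕ) (i : Fin 3) :
    ContDiff ℝ ∞ (W1 u G n i) := by
  have h1 := contDiff_mol (rh_smooth n) (rh_cpt n) (h.memLp.locallyIntegrable (by norm_num))
  have h2 := contDiff_mol (rh_smooth n) (rh_cpt n)
    ((h.memLp_grad i).locallyIntegrable (by norm_num))
  exact ((cut_smooth n).smul h2).add ((pd_cut_smooth n i).smul h1)

theorem W1_fderiv {u : E3 → ℂ} {G : Fin 3 → E3 → ℂ} (h : IsH1 u G) (n : ℕ) (i : Fin 3) (x : E3) :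
    fderiv ℝ (W1 u G n i) x (EuclideanSpace.single i 1) =
      cut n x • fderiv ℝ (mol (rh n) (G i)) x (EuclideanSpace.single i 1)
      + (2 * pd i (cut n) x) • mol (rh n) (G i) x + pd i (pd i (cut n)) x • mol (rh n) u x := by
  have h1 : HasFDerivAt (cut n) (fderiv ℝ (cut n) x) x :=
    ((cut_smooth n).differentiable (by simp)).differentiableAt.hasFDerivAt
  have h2 : HasFDerivAt (mol (rh n) (G i)) (fderiv ℝ (mol (rh n) (G i)) x) x :=
    ((contDiff_mol (rh_smooth n) (rh_cpt n) ((h.memLp_grad i).locallyIntegrable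
      (by norm_num))).differentiable (by simp)).differentiableAt.hasFDerivAt
  have h3 : HasFDerivAt (pd i (cut n)) (fderiv ℝ (pd i (cut n)) x) x :=
    ((pd_cut_smooth n i).differentiable (by simp)).differentiableAt.hasFDerivAt
  have h4 : HasFDerivAt (mol (rh n) u) (fderiv ℝ (mol (rh n) u) x) x :=
    ((contDiff_mol (rh_smooth n) (rh_cpt n) (h.memLp.locallyIntegrable
      (by norm_num))).differentiable (by simp)).differentiableAt.hasFDerivAt
  have h5 : HasFDerivAt (W1 u G n i) _ x := (h1.smul h2).add (h3.smul h4)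
  have h6 := pd_mol h n i x
  rw [h5.fderiv]
  simp only [add_apply, smul_apply, ContinuousLinearMap.smulRight_apply, h6]
  unfold pd
  simp only [Complex.real_smul]
  push_cast
  ring

theorem lapW {u : E3 → ℂ} {G : Fin 3 → E3 → ℂ} {g : E3 → ℂ} (h : IsH1 u G)
    (hg : ∀ φ, IsTest φ → ∑ i, ∫ x, (pd i φ x : ℂ) * G i x = ∫ x, (φ x : ℂ) * g x)
    (n : ℕ) (x : E3) :
    ((lap (fun x => (Wn u n x).re) x : ℂ) + (lap (fun x => (Wn u n x).im) x : ℂ) * Complex.I) =
      - (cut n x • mol (rh n) g x) + (∑ i, (2 * pd i (cut n) x) • mol (rh n) (G i) x)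
        + ∑ i, pd i (pd i (cut n)) x • mol (rh n) u x := by
  have e1 : ∀ i, pd i (fun x => (Wn u n x).re) = fun x => (W1 u G n i x).re := by
    intro i
    ext x
    rw [pd_re (Wn_smooth h.memLp n), Wn_fderiv h]
    rfl
  have e2 : ∀ i, pd i (fun x => (Wn u n x).im) = fun x => (W1 u G n i x).im := by
    intro i
    ext x
    rw [pd_im (Wn_smooth h.memLp n), Wn_fderiv h]
    rfl
  have e3 : ((lap (fun x => (Wn u n x).re) x : ℂ)
      + (lap (fun x => (Wn u n x).im) x : ℂ) * Complex.I) =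
      ∑ i, fderiv ℝ (W1 u G n i) x (EuclideanSpace.single i 1) := by
    unfold lap
    push_cast
    rw [Finset.sum_mul, ← Finset.sum_add_distrib]
    apply Finset.sum_congr rfl
    intro i _
    rw [e1, e2, pd_re (W1_smooth h n i), pd_im (W1_smooth h n i), Complex.re_add_im]
  rw [e3]
  simp only [W1_fderiv h]
  rw [Finset.sum_add_distrib, Finset.sum_add_distrib, ← Finset.smul_sum, div_mol h hg, smul_neg]

/-- converse of `tendsto_integral_sq` -/
theorem tendsto_eLpNorm {f : ℕ → E3 → ℂ} (hf : ∀ n, MemLp (f n) 2 volume)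
    (h : Tendsto (fun n => ∫ x, ‖f n x‖ ^ 2) atTop (𝓝 0)) :
    Tendsto (fun n => eLpNorm (f n) 2 volume) atTop (𝓝 0) := by
  have h1 : Tendsto (fun n => √(∫ x, ‖f n x‖ ^ 2)) atTop (𝓝 0) := by
    have := (Real.continuous_sqrt.tendsto 0).comp h
    simpa [Function.comp_def] using this
  have h2 : Tendsto (fun n => ENNReal.ofReal (√(∫ x, ‖f n x‖ ^ 2))) atTop (𝓝 0) := by
    have := ENNReal.tendsto_ofReal h1
    simpa using this
  refine h2.congr (fun n => ?_)
  rw [integral_sq_eq (hf n), Real.sqrt_sq ENNReal.toReal_nonneg,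
    ENNReal.ofReal_toReal (hf n).2.ne]

/-- small multiples of mollifications tend to zero -/
theorem small_tendsto {v : E3 → ℂ} (hv : MemLp v 2 volume) (C : ℝ) (hC : 0 ≤ C)
    (a : ℕ → E3 → ℝ) (ha : ∀ n, Continuous (a n)) (hb : ∀ n x, |a n x| ≤ C / ((n : ℝ) + 1)) :
    (∀ n, MemLp (fun x => a n x • mol (rh n) v x) 2 volume) ∧
    Tendsto (fun n => eLpNorm (fun x => a n x • mol (rh n) v x) 2 volume) atTop (𝓝 0) := by
  have hm : ∀ n, AEStronglyMeasurable (fun x => a n x • mol (rh n) v x) volume := fun n =>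
    (ha n).aestronglyMeasurable.smul (memLp_mol hv n).1
  have hle : ∀ n, eLpNorm (fun x => a n x • mol (rh n) v x) 2 volume ≤
      ENNReal.ofReal (C / ((n : ℝ) + 1)) * eLpNorm v 2 volume := by
    intro n
    have h1 : eLpNorm (fun x => a n x • mol (rh n) v x) 2 volume ≤
        ENNReal.ofReal (C / ((n : ℝ) + 1)) * eLpNorm (mol (rh n) v) 2 volume := by
      apply eLpNorm_le_mul_eLpNorm_of_ae_le_mul
      refine Filter.Eventually.of_forall (fun x => ?_)
      rw [norm_smul, Real.norm_eq_abs]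
      exact mul_le_mul_of_nonneg_right (hb n x) (norm_nonneg _)
    refine h1.trans ?_
    gcongr
    exact eL2_mol_le (rh_smooth n).continuous ((bmp n).integrable_normed)
      (bmp n).nonneg_normed (bmp n).integral_normed hv.1
  refine ⟨fun n => ⟨hm n, (hle n).trans_lt (ENNReal.mul_lt_top ENNReal.ofReal_lt_top hv.2)⟩, ?_⟩
  have h2 : Tendsto (fun n : ℕ => ENNReal.ofReal (C / ((n : ℝ) + 1)) * eLpNorm v 2 volume) atTop
      (𝓝 (0 * eLpNorm v 2 volume)) := by
    apply ENNReal.Tendsto.mul_const _ (Or.inr hv.2.ne)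
    have h3 : Tendsto (fun n : ℕ => C / ((n : ℝ) + 1)) atTop (𝓝 0) := by
      have := (tendsto_one_div_add_atTop_nhds_zero_nat (𝕜 := ℝ)).const_mul C
      rw [mul_zero] at this
      refine this.congr (fun n => ?_)
      ring
    have := ENNReal.tendsto_ofReal h3
    simpa using this
  rw [zero_mul] at h2
  exact tendsto_of_tendsto_of_tendsto_of_le_of_le tendsto_const_nhds h2 (fun n => zero_le) hle

theorem add_tendsto {f g : ℕ → E3 → ℂ} (hf : ∀ n, MemLp (f n) 2 volume)
    (hg : ∀ n, MemLp (g n) 2 volume)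
    (h1 : Tendsto (fun n => eLpNorm (f n) 2 volume) atTop (𝓝 0))
    (h2 : Tendsto (fun n => eLpNorm (g n) 2 volume) atTop (𝓝 0)) :
    (∀ n, MemLp (fun x => f n x + g n x) 2 volume) ∧
    Tendsto (fun n => eLpNorm (fun x => f n x + g n x) 2 volume) atTop (𝓝 0) := by
  refine ⟨fun n => (hf n).add (hg n), ?_⟩
  have h3 := h1.add h2
  rw [add_zero] at h3
  exact tendsto_of_tendsto_of_tendsto_of_le_of_le tendsto_const_nhds h3 (fun n => zero_le)
    (fun n => eLpNorm_add_le (hf n).1 (hg n).1 (by norm_num))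

theorem sum_tendsto {f : Fin 3 → ℕ → E3 → ℂ} (hf : ∀ i n, MemLp (f i n) 2 volume)
    (h1 : ∀ i, Tendsto (fun n => eLpNorm (f i n) 2 volume) atTop (𝓝 0)) :
    (∀ n, MemLp (fun x => ∑ i, f i n x) 2 volume) ∧
    Tendsto (fun n => eLpNorm (fun x => ∑ i, f i n x) 2 volume) atTop (𝓝 0) := by
  simp only [Fin.sum_univ_three]
  have h2 := add_tendsto (hf 0) (hf 1) (h1 0) (h1 1)
  exact add_tendsto h2.1 (hf 2) h2.2 (h1 2)

theorem dens2 : T_dens2 := by
  intro u G g h hgm hg
  obtain ⟨C, hC0, hC⟩ := cut_fderiv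
  obtain ⟨D, hD0, hD⟩ := cut_fderiv2
  -- the pieces
  have hcutm : ∀ n (f : E3 → ℂ), MemLp f 2 volume →
      MemLp (fun x => ((1 - cut n x : ℝ) : ℂ) * f x) 2 volume := by
    intro n f hf
    refine hf.of_le ?_ ?_
    · have h1 : Continuous (fun x => ((1 - cut n x : ℝ) : ℂ)) :=
        Complex.continuous_ofReal.comp (continuous_const.sub (cut_smooth n).continuous)
      exact h1.aestronglyMeasurable.mul hf.1
    · refine Filter.Eventually.of_forall (fun x => ?_)
      rw [norm_mul]
      have h1 : ‖((1 - cut n x : ℝ) : ℂ)‖ ≤ 1 := by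
        rw [Complex.norm_real, Real.norm_eq_abs, abs_le]
        constructor <;> linarith [cut_nonneg n x, cut_le_one n x]
      calc ‖((1 - cut n x : ℝ) : ℂ)‖ * ‖f x‖ ≤ 1 * ‖f x‖ :=
            mul_le_mul_of_nonneg_right h1 (norm_nonneg _)
        _ = ‖f x‖ := one_mul _
  have hA : ∀ f : E3 → ℂ, MemLp f 2 volume →
      (∀ n, MemLp (fun x => f x - cut n x • mol (rh n) f x) 2 volume) ∧
      Tendsto (fun n => eLpNorm (fun x => f x - cut n x • mol (rh n) f x) 2 volume)
        atTop (𝓝 0) := by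
    intro f hf
    have a1 : ∀ n, MemLp (fun x => ((1 - cut n x : ℝ) : ℂ) * f x) 2 volume := fun n =>
      hcutm n f hf
    have a2 := tendsto_eLpNorm a1 (cut_L2 hf)
    have b1 : ∀ n, MemLp (fun x => (cut n x : ℂ) * (f x - mol (rh n) f x)) 2 volume ∧
        eLpNorm (fun x => (cut n x : ℂ) * (f x - mol (rh n) f x)) 2 volume ≤
          eLpNorm (fun x => mol (rh n) f x - f x) 2 volume := by
      intro n
      have hle : ∀ x, ‖(cut n x : ℂ) * (f x - mol (rh n) f x)‖ ≤ ‖mol (rh n) f x - f x‖ := by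
        intro x
        rw [norm_mul, norm_sub_rev, Complex.norm_real, Real.norm_eq_abs,
          abs_of_nonneg (cut_nonneg n x)]
        exact mul_le_of_le_one_left (norm_nonneg _) (cut_le_one n x)
      have hm : MemLp (fun x => mol (rh n) f x - f x) 2 volume := (memLp_mol hf n).sub hf
      refine ⟨hm.of_le ?_ (Filter.Eventually.of_forall hle), eLpNorm_mono hle⟩
      have h1 : Continuous (fun x => (cut n x : ℂ)) :=
        Complex.continuous_ofReal.comp (cut_smooth n).continuous
      exact h1.aestronglyMeasurable.mul (hf.sub (memLp_mol hf n)).1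
    have b2 : Tendsto (fun n => eLpNorm (fun x => (cut n x : ℂ) * (f x - mol (rh n) f x)) 2
        volume) atTop (𝓝 0) :=
      tendsto_of_tendsto_of_tendsto_of_le_of_le tendsto_const_nhds (mol_tendsto hf)
        (fun n => zero_le) (fun n => (b1 n).2)
    have e : ∀ n, (fun x => f x - cut n x • mol (rh n) f x) =
        fun x => ((1 - cut n x : ℝ) : ℂ) * f x + (cut n x : ℂ) * (f x - mol (rh n) f x) := by
      intro n
      ext x
      rw [Complex.real_smul]
      push_cast
      ring
    simp only [e]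
    exact add_tendsto a1 (fun n => (b1 n).1) a2 b2
  refine ⟨fun n x => (Wn u n x).re, fun n x => (Wn u n x).im, fun n => ⟨⟨?_, ?_⟩, ⟨?_, ?_⟩⟩, ?_,
    ?_, ?_⟩
  · exact Complex.reCLM.contDiff.comp (Wn_smooth h.memLp n)
  · exact (Wn_cs u n).comp_left (g := Complex.re) Complex.zero_re
  · exact Complex.imCLM.contDiff.comp (Wn_smooth h.memLp n)
  · exact (Wn_cs u n).comp_left (g := Complex.im) Complex.zero_im
  · simp only [Complex.re_add_im]
    have := hA u h.memLp
    exact tendsto_integral_sq this.1 this.2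
  · intro i
    have hpd : ∀ n x, ((pd i (fun x => (Wn u n x).re) x : ℝ) : ℂ) +
        ((pd i (fun x => (Wn u n x).im) x : ℝ) : ℂ) * Complex.I =
        cut n x • mol (rh n) (G i) x + pd i (cut n) x • mol (rh n) u x := by
      intro n x
      rw [pd_re (Wn_smooth h.memLp n), pd_im (Wn_smooth h.memLp n), Complex.re_add_im,
        Wn_fderiv h]
    simp only [hpd]
    have h1 := hA (G i) (h.memLp_grad i)
    have h2 := small_tendsto h.memLp C hC0 (fun n x => - pd i (cut n) x)
      (fun n => (pd_cut_smooth n i).continuous.neg) (fun n x => by rw [abs_neg]; exact hC n i x)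
    have h3 := add_tendsto h1.1 h2.1 h1.2 h2.2
    have e : ∀ n x, G i x - (cut n x • mol (rh n) (G i) x + pd i (cut n) x • mol (rh n) u x) =
        G i x - cut n x • mol (rh n) (G i) x + (- pd i (cut n) x) • mol (rh n) u x := by
      intro n x
      rw [neg_smul]
      ring
    simp only [e]
    exact tendsto_integral_sq h3.1 h3.2
  · simp only [add_assoc, lapW h hg]
    have h1 := hA g hgm
    have h2 : ∀ i, _ := fun i => small_tendsto (h.memLp_grad i) (2 * C) (by positivity)
      (fun n x => 2 * pd i (cut n) x) (fun n => continuous_const.mul (pd_cut_smooth n i).continuous)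
      (fun n x => by
        rw [abs_mul, abs_of_pos (by norm_num : (0:ℝ) < 2), mul_div_assoc]
        exact mul_le_mul_of_nonneg_left (hC n i x) (by norm_num))
    have h3 : ∀ i, _ := fun i => small_tendsto h.memLp D hD0 (fun n x => pd i (pd i (cut n)) x)
      (fun n => by
        have h := (pd_cut_smooth n i).fderiv_right (m := ∞) (by simp)
        exact (h.clm_apply contDiff_const).continuous) (fun n x => hD n i x)
    have h4 := sum_tendsto (fun i => (h2 i).1) (fun i => (h2 i).2)
    have h5 := sum_tendsto (fun i => (h3 i).1) (fun i => (h3 i).2)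
    have h6 := add_tendsto h4.1 h5.1 h4.2 h5.2
    have h7 := add_tendsto h1.1 h6.1 h1.2 h6.2
    have h8 := tendsto_integral_sq h7.1 h7.2
    refine h8.congr (fun n => ?_)
    apply integral_congr_ae
    refine Filter.Eventually.of_forall (fun x => ?_)
    simp only
    congr 2
    ring

end Pool.Agent.H56.HN
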