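import Pool.Agent.H56.HN.MPTa

/-! Module MPT: positivity of the multipoles for test densities and bounded multipliers. -/

set_option autoImplicit false

namespace Pool.Agent.H56.HN

open MeasureTheory Set Filter Topology Real
open scoped ContDiff ENNReal
open Pool.Agent.H99.HM Pool.Agent.H99.HN

/-- the potential of a test density and its radial part -/
structure Pot (ρ U : E3 → ℝ) (V v : ℝ → ℝ) (C : ℝ) : Prop where
  rc : Continuous ρ
  rs : HasCompactSupport ρ
  sm : ContDiff ℝ ∞ U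
  lp : ∀ x, lap U x = -4 * π * ρ x
  bU : ∀ x, |U x| ≤ C / (1 + ‖x‖) ∧ ∀ i, |pd i U x| ≤ C / (1 + ‖x‖) ^ 2
  c1 : C1 V v
  bV : ∀ r, 0 < r → |V r| ≤ C / (1 + r) ∧ |v r| ≤ C / (1 + r) ^ 2
  orth : ∀ f : ℝ → ℝ, Continuous f → HasCompactSupport f → tsupport f ⊆ Ioi 0 →
    ∫ x : E3, f ‖x‖ * (U x - V ‖x‖) = 0

section

variable {ρ U : E3 → ℝ} {V v : ℝ → ℝ} {C : ℝ} (P : Pot ρ U V v C)
include P

theorem Pot.cd : ContDiffOn ℝ 1 (fun x => U x - V ‖x‖) {x | x ≠ 0} :=
  ((P.sm.of_le (by simp)).contDiffOn).sub (c1_cdn P.c1)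

theorem Pot.pdF {x : E3} (hx : x ≠ 0) (i : Fin 3) :
    pd i (fun x => U x - V ‖x‖) x = pd i U x - v ‖x‖ * (x i / ‖x‖) := by
  have h0 : 0 < ‖x‖ := norm_pos_iff.2 hx
  have h1 : DifferentiableAt ℝ U x := (P.sm.differentiable (by simp)).differentiableAt
  have h2 := rad_der hx (P.c1.der _ h0)
  rw [pd_sub' h1 h2.differentiableAt, pd_rad' hx (P.c1.der _ h0)]

theorem Pot.pdF_cont (i : Fin 3) : ContinuousOn (pd i (fun x => U x - V ‖x‖)) {x | x ≠ 0} := by
  have h1 : ContinuousOn (fun x : E3 => pd i U x - v ‖x‖ * (x i / ‖x‖)) {x | x ≠ 0} := by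
    apply ContinuousOn.sub
    · have := P.sm.continuous_fderiv (by simp)
      exact (this.clm_apply continuous_const).continuousOn
    · apply (norm_contOn P.c1.cont).mul
      apply ContinuousOn.div
      · exact (EuclideanSpace.proj i : E3 →L[ℝ] ℝ).continuous.continuousOn
      · exact continuous_norm.continuousOn
      · intro x hx
        exact norm_ne_zero_iff.2 hx
  exact h1.congr (fun x hx => P.pdF hx i)

end

/-- radial derivative -/
noncomputable def Dr (F : E3 → ℝ) (x : E3) : ℝ := ∑ i, x i / ‖x‖ * pd i F x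

/-- square of the gradient -/
noncomputable def Gr2 (F : E3 → ℝ) (x : E3) : ℝ := ∑ i, pd i F x ^ 2

section

variable {ρ U : E3 → ℝ} {V v : ℝ → ℝ} {C : ℝ} (P : Pot ρ U V v C)
include P

theorem Pot.Dr_cont : ContinuousOn (Dr (fun x => U x - V ‖x‖)) {x | x ≠ 0} := by
  apply continuousOn_finsetSum
  intro i _
  apply ContinuousOn.mul _ (P.pdF_cont i)
  apply ContinuousOn.div
  · exact (EuclideanSpace.proj i : E3 →L[ℝ] ℝ).continuous.continuousOn
  · exact continuous_norm.continuousOn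
  · intro x hx
    exact norm_ne_zero_iff.2 hx

theorem Pot.Gr2_cont : ContinuousOn (Gr2 (fun x => U x - V ‖x‖)) {x | x ≠ 0} := by
  apply continuousOn_finsetSum
  intro i _
  exact (P.pdF_cont i).pow 2

theorem Pot.F_cont : ContinuousOn (fun x => U x - V ‖x‖) {x | x ≠ 0} := P.cd.continuousOn

/-- orthogonality to radial functions -/
theorem Pot.orth' {f k : ℝ → ℝ} (hf : ContinuousOn f (Ioi 0)) (hk : ContinuousOn k (Ioi 0))
    (hs : ∃ a b : ℝ, 0 < a ∧ ∀ r, 0 < r → (r < a ∨ b < r) → k r = 0) :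
    ∫ x : E3, (f ‖x‖ * k ‖x‖) * (U x - V ‖x‖) = 0 := by
  obtain ⟨g, g1, g2, g3, g4, _⟩ := radC hf hk hs
  rw [← P.orth g g1 g2 g3]
  apply integral_congr_ae
  filter_upwards [ae_ne0] with x hx
  rw [g4 _ (norm_pos_iff.2 hx)]

theorem Pot.wGood {k k1 : ℝ → ℝ} (h : RC k k1) :
    GoodC (fun x => (U x - V ‖x‖) * k1 ‖x‖ + Dr (fun x => U x - V ‖x‖) x * k ‖x‖) :=
  (GoodC.mul_left P.F_cont h.goodC1).add (GoodC.mul_left P.Dr_cont h.goodC)

theorem Pot.polyB {k k1 : ℝ → ℝ} (h : RC k k1) (p : Polynomial ℝ) :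
    ∫ x, p.eval ‖x‖ * ((U x - V ‖x‖) * k1 ‖x‖ + Dr (fun x => U x - V ‖x‖) x * k ‖x‖) = 0 := by
  set F : E3 → ℝ := fun x => U x - V ‖x‖ with hF
  have hp : C1 (fun r => p.eval r) (fun r => p.derivative.eval r) :=
    ⟨fun r _ => p.hasDerivAt r, p.derivative.continuous.continuousOn⟩
  have h1 := div_rad (h.mul hp) P.cd
  have hs1 : ∃ a b : ℝ, 0 < a ∧ ∀ r, 0 < r → (r < a ∨ b < r) → k r = 0 := by
    obtain ⟨a, b, ha, hab⟩ := h.supp
    exact ⟨a, b, ha, fun r _ hr => (hab r hr).1⟩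
  have hfc : ContinuousOn (fun r => p.derivative.eval r + 2 * p.eval r / r) (Ioi 0) := by
    apply hp.cont.add
    apply ContinuousOn.div
    · exact (continuous_const.mul p.continuous).continuousOn
    · exact continuousOn_id
    · intro r hr
      exact ne_of_gt hr
  have h2 := P.orth' hfc (c1_contOn h.c1) hs1
  have i1 : Integrable (fun x : E3 => ((fun r => p.derivative.eval r + 2 * p.eval r / r) ‖x‖
      * k ‖x‖) * (U x - V ‖x‖)) := by
    have : GoodC (fun x : E3 => ((U x - V ‖x‖) * (fun r => p.derivative.eval r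
        + 2 * p.eval r / r) ‖x‖) * k ‖x‖) :=
      GoodC.mul_left (P.F_cont.mul (norm_contOn hfc)) h.goodC
    refine this.int.congr (Filter.Eventually.of_forall fun x => ?_)
    simp only
    ring
  have i2 : Integrable (fun x : E3 => p.eval ‖x‖ * (F x * k1 ‖x‖ + Dr F x * k ‖x‖)) := by
    exact (GoodC.mul_left (norm_contOn (c1_contOn hp)) (P.wGood h)).int
  have h3 := integral_add i2 i1
  rw [h2, add_zero] at h3
  rw [← h3, ← h1]
  apply integral_congr_ae
  filter_upwards with x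
  simp only [Dr, hF]
  ring

theorem Pot.fB {k k1 f : ℝ → ℝ} (h : RC k k1) (hf : ContinuousOn f (Ioi 0)) :
    ∫ x, f ‖x‖ * ((U x - V ‖x‖) * k1 ‖x‖ + Dr (fun x => U x - V ‖x‖) x * k ‖x‖) = 0 := by
  set w : E3 → ℝ := fun x => (U x - V ‖x‖) * k1 ‖x‖ + Dr (fun x => U x - V ‖x‖) x * k ‖x‖
    with hw
  have hwg : GoodC w := P.wGood h
  obtain ⟨a, b, ha, hab⟩ := hwg.supp
  have key : ∀ ε, 0 < ε → |∫ x, f ‖x‖ * w x| ≤ ε * ∫ x, |w x| := by
    intro ε hε
    obtain ⟨p, hp⟩ := exists_polynomial_near_of_continuousOn a b f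
      (hf.mono (fun r hr => lt_of_lt_of_le ha hr.1)) ε hε
    have h0 := P.polyB h p
    have i1 : Integrable (fun x => f ‖x‖ * w x) := (GoodC.mul_left (norm_contOn hf) hwg).int
    have i2 : Integrable (fun x : E3 => p.eval ‖x‖ * w x) :=
      (GoodC.mul_left (norm_contOn p.continuous.continuousOn) hwg).int
    have h1 : ∫ x, f ‖x‖ * w x = ∫ x, (f ‖x‖ * w x - p.eval ‖x‖ * w x) := by
      rw [integral_sub i1 i2]
      change _ = _ - ∫ x : E3, p.eval ‖x‖ * w x
      rw [h0, sub_zero]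
    rw [h1, ← integral_const_mul]
    have i3 : Integrable (fun x => ε * |w x|) := (hwg.int.abs).const_mul ε
    refine (abs_integral_le_integral_abs).trans (integral_mono (i1.sub i2).abs i3 fun x => ?_)
    simp only
    rw [← sub_mul, abs_mul]
    by_cases hx : w x = 0
    · simp [hx]
    · have hx1 : ‖x‖ ∈ Icc a b := by
        by_contra hc
        apply hx
        apply hab x
        by_contra hc2
        push Not at hc2
        exact hc ⟨hc2.1, hc2.2⟩
      apply mul_le_mul_of_nonneg_right _ (abs_nonneg _)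
      have := hp _ hx1
      rw [abs_sub_comm]
      exact this.le
  have hz : |∫ x, f ‖x‖ * w x| ≤ 0 := by
    have hI : 0 ≤ ∫ x, |w x| := integral_nonneg fun x => abs_nonneg _
    apply le_of_forall_pos_le_add
    intro ε hε
    have h1 := key (ε / ((∫ x, |w x|) + 1)) (by positivity)
    refine h1.trans ?_
    rw [zero_add, div_mul_eq_mul_div, div_le_iff₀ (by positivity)]
    nlinarith
  exact abs_nonpos_iff.1 hz

/-- the energy identity -/
theorem Pot.energy {k k1 : ℝ → ℝ} (h : RC k k1) :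
    4 * π * ∫ x, (ρ x * (U x - V ‖x‖)) * k ‖x‖ =
      ∫ x, (Gr2 (fun x => U x - V ‖x‖) x * k ‖x‖
        + ((U x - V ‖x‖) * Dr (fun x => U x - V ‖x‖) x) * k1 ‖x‖) := by
  set F : E3 → ℝ := fun x => U x - V ‖x‖ with hF
  have hw : Good (fun x => F x * k ‖x‖) := Good.mul_left P.cd h.good
  have hpU : ∀ i, ContDiff ℝ ∞ (pd i U) := fun i => by
    have h := P.sm.fderiv_right (m := ∞) (by simp)
    exact h.clm_apply contDiff_const
  have hX : ∀ i, Good (fun x => pd i U x * (F x * k ‖x‖)) := fun i =>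
    Good.mul_left ((hpU i).of_le (by simp)).contDiffOn hw
  have hsum : ∫ x, ∑ i, pd i (fun x => pd i U x * (F x * k ‖x‖)) x = 0 := by
    rw [integral_finsetSum _ (fun i _ => ((hX i).pd_goodC i).int)]
    exact Finset.sum_eq_zero fun i _ => (hX i).int_pd i
  have g1 : GoodC (fun x => Gr2 F x * k ‖x‖ + (F x * Dr F x) * k1 ‖x‖) :=
    (GoodC.mul_left P.Gr2_cont h.goodC).add (GoodC.mul_left (P.F_cont.mul P.Dr_cont) h.goodC1)
  have g2 : GoodC (fun x => v ‖x‖ * (F x * k1 ‖x‖ + Dr F x * k ‖x‖)) :=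
    GoodC.mul_left (norm_contOn P.c1.cont) (P.wGood h)
  have g3 : GoodC (fun x => (ρ x * F x) * k ‖x‖) :=
    GoodC.mul_left (P.rc.continuousOn.mul P.F_cont) h.goodC
  have g4 := g3.const_mul (4 * π)
  have e : ∫ x, ∑ i, pd i (fun x => pd i U x * (F x * k ‖x‖)) x =
      ∫ x, ((Gr2 F x * k ‖x‖ + (F x * Dr F x) * k1 ‖x‖)
        + v ‖x‖ * (F x * k1 ‖x‖ + Dr F x * k ‖x‖) - 4 * π * ((ρ x * F x) * k ‖x‖)) := by
    apply integral_congr_ae
    filter_upwards [ae_ne0] with x hx
    have h0 : 0 < ‖x‖ := norm_pos_iff.2 hx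
    have hFd : DifferentiableAt ℝ F x :=
      ((P.cd x hx).contDiffAt (isOpen_ne0.mem_nhds hx)).differentiableAt (by norm_num)
    have hkd := (rad_der hx (h.c1.der _ h0)).differentiableAt
    have e1 : ∀ i, pd i (fun x => pd i U x * (F x * k ‖x‖)) x =
        pd i U x * (F x * (k1 ‖x‖ * (x i / ‖x‖)) + pd i F x * k ‖x‖)
          + pd i (pd i U) x * (F x * k ‖x‖) := by
      intro i
      have a1 := pd_mul' (f := pd i U) (g := fun x => F x * k ‖x‖)
        ((hpU i).differentiable (by simp)).differentiableAt (hFd.mul hkd) i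
      have a2 := pd_mul' (f := F) (g := fun x => k ‖x‖) hFd hkd i
      rw [a1, a2, pd_rad' hx (h.c1.der _ h0)]
    have e2 : ∀ i, pd i U x = pd i F x + v ‖x‖ * (x i / ‖x‖) := by
      intro i
      have := P.pdF hx i
      linarith
    have e3 := P.lp x
    unfold lap at e3
    simp only [e1, Finset.sum_add_distrib, ← Finset.sum_mul]
    rw [e3]
    simp only [e2]
    have h1 := sum_dir hx
    unfold Gr2 Dr
    simp only [Fin.sum_univ_three] at h1 ⊢
    linear_combination (F x * k1 ‖x‖ * v ‖x‖) * h1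
  rw [hsum, integral_sub (g1.add g2).int g4.int, integral_add g1.int g2.int, P.fB h P.c1.cont,
    integral_const_mul, add_zero] at e
  linarith

/-- the main inequality with a cut-off -/
theorem Pot.ineq (hpoin : T_poin) {h h1 χ χ1 : ℝ → ℝ} (hm : Mult h h1) (hχ : RC χ χ1)
    (hχ0 : ∀ r, 0 ≤ χ r) :
    ∫ x, χ1 ‖x‖ * (h ‖x‖ * (U x - V ‖x‖) ^ 2 / (2 * ‖x‖)
      + h ‖x‖ * (U x - V ‖x‖) * Dr (fun x => U x - V ‖x‖) x) ≤
    4 * π * ∫ x, (ρ x * (U x - V ‖x‖)) * (h ‖x‖ * χ ‖x‖) := by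
  set F : E3 → ℝ := fun x => U x - V ‖x‖ with hF
  have hh : C1 h h1 := ⟨hm.der, hm.cont1.mono Ioi_subset_Ici_self⟩
  set k : ℝ → ℝ := fun r => h r * χ r with hk
  set k1 : ℝ → ℝ := fun r => h1 r * χ r + h r * χ1 r with hk1
  have hK : RC k k1 := hχ.mul hh
  have hen := P.energy hK
  -- the Poincare inequality
  have hinv2 : ContinuousOn (fun r : ℝ => 1 / r ^ 2) (Ioi 0) := by
    apply ContinuousOn.div continuousOn_const (continuousOn_pow 2)
    intro r hr
    exact pow_ne_zero 2 (ne_of_gt hr)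
  have hs1 : ∃ a b : ℝ, 0 < a ∧ ∀ r, 0 < r → (r < a ∨ b < r) → k r = 0 := by
    obtain ⟨a, b, ha, hab⟩ := hK.supp
    exact ⟨a, b, ha, fun r _ hr => (hab r hr).1⟩
  obtain ⟨g, g1, g2, g3, g4, g5⟩ := radC hinv2 (c1_contOn hK.c1) hs1
  have hk0 : ∀ r, 0 < r → 0 ≤ k r := fun r hr => mul_nonneg (hm.pos r hr).le (hχ0 r)
  have g0 : ∀ r, 0 ≤ g r := by
    intro r
    rcases lt_or_ge 0 r with hr | hr
    · rw [g4 r hr]
      exact mul_nonneg (by positivity) (hk0 r hr)
    · rw [g5 r hr]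
  have hP := hpoin F P.cd (fun f f1 f2 f3 => P.orth f f1 f2 f3) g g1 g2 g3 g0
  -- the divergence identity
  have hκ : RC (fun r => 1 / r * k r) (fun r => -(1 / r ^ 2) * k r + 1 / r * k1 r) :=
    hK.mul c1_inv
  have hF2 : ContDiffOn ℝ 1 (fun x => F x * F x) {x | x ≠ 0} := P.cd.mul P.cd
  have hD := div_rad hκ hF2
  -- integrable pieces
  have G1 : GoodC (fun x => (F x ^ 2 * (1 / ‖x‖ ^ 2)) * k ‖x‖) :=
    GoodC.mul_left ((P.F_cont.pow 2).mul (norm_contOn hinv2)) hK.goodC
  have G2 : GoodC (fun x => Dr F x ^ 2 * k ‖x‖) := GoodC.mul_left (P.Dr_cont.pow 2) hK.goodC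
  have G3 : GoodC (fun x => (F x * Dr F x) * k1 ‖x‖) :=
    GoodC.mul_left (P.F_cont.mul P.Dr_cont) hK.goodC1
  have G4 : GoodC (fun x => Gr2 F x * k ‖x‖) := GoodC.mul_left P.Gr2_cont hK.goodC
  have e1 : ∫ x, g ‖x‖ * F x ^ 2 = ∫ x, (F x ^ 2 * (1 / ‖x‖ ^ 2)) * k ‖x‖ := by
    apply integral_congr_ae
    filter_upwards [ae_ne0] with x hx
    rw [g4 _ (norm_pos_iff.2 hx)]
    ring
  have e2 : ∫ x, g ‖x‖ * ‖x‖ ^ 2 * ((∑ i, pd i F x ^ 2) - (∑ i, x i / ‖x‖ * pd i F x) ^ 2) =
      ∫ x, (Gr2 F x * k ‖x‖ - Dr F x ^ 2 * k ‖x‖) := by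
    apply integral_congr_ae
    filter_upwards [ae_ne0] with x hx
    have h0 : 0 < ‖x‖ := norm_pos_iff.2 hx
    rw [g4 _ h0]
    unfold Gr2 Dr
    field_simp
  rw [e1, e2, integral_sub G4.int G2.int] at hP
  rw [integral_add G4.int G3.int] at hen
  -- the second identity as an integral of a good function
  set E : E3 → ℝ := fun x => (χ ‖x‖ * h1 ‖x‖ + χ1 ‖x‖ * h ‖x‖) * (1 / ‖x‖) * F x ^ 2
    + χ ‖x‖ * h ‖x‖ * (1 / ‖x‖ ^ 2) * F x ^ 2
    + 2 * (χ ‖x‖ * h ‖x‖ * (1 / ‖x‖)) * (F x * Dr F x) with hE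
  have hinv : ContinuousOn (fun r : ℝ => 1 / r) (Ioi 0) := c1_contOn c1_inv
  have G5 : GoodC E := by
    have a1 : GoodC (fun x => (F x ^ 2 * (1 / ‖x‖)) * k1 ‖x‖) :=
      GoodC.mul_left ((P.F_cont.pow 2).mul (norm_contOn hinv)) hK.goodC1
    have a3 : GoodC (fun x => (2 * (F x * Dr F x) * (1 / ‖x‖)) * k ‖x‖) :=
      GoodC.mul_left ((continuousOn_const.mul (P.F_cont.mul P.Dr_cont)).mul (norm_contOn hinv))
        hK.goodC
    have a4 := (a1.add G1).add a3
    have : E = fun x => (F x ^ 2 * (1 / ‖x‖)) * k1 ‖x‖ + (F x ^ 2 * (1 / ‖x‖ ^ 2)) * k ‖x‖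
        + (2 * (F x * Dr F x) * (1 / ‖x‖)) * k ‖x‖ := by
      ext x
      simp only [hE, hk, hk1]
      ring
    rw [this]
    exact a4
  have e3 : ∫ x, E x = 0 := by
    rw [← hD]
    apply integral_congr_ae
    filter_upwards [ae_ne0] with x hx
    have h0 : 0 < ‖x‖ := norm_pos_iff.2 hx
    have hFd : DifferentiableAt ℝ F x :=
      ((P.cd x hx).contDiffAt (isOpen_ne0.mem_nhds hx)).differentiableAt (by norm_num)
    have e4 : ∀ i, pd i (fun x => F x * F x) x = 2 * F x * pd i F x := by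
      intro i
      have a1 := pd_mul' (f := F) (g := F) hFd hFd i
      rw [a1]
      ring
    simp only [e4, hE, hk, hk1]
    unfold Dr
    have e5 : ∑ i, x i / ‖x‖ * (2 * F x * pd i F x) =
        2 * F x * ∑ i, x i / ‖x‖ * pd i F x := by
      rw [Finset.mul_sum]
      apply Finset.sum_congr rfl
      intro i _
      ring
    rw [e5]
    field_simp
    ring
  -- the pointwise inequality
  set R : E3 → ℝ := fun x => χ1 ‖x‖ * (h ‖x‖ * F x ^ 2 / (2 * ‖x‖) + h ‖x‖ * F x * Dr F x) with hR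
  have G6 : GoodC R := by
    have hc : ContinuousOn (fun r : ℝ => h r / (2 * r)) (Ioi 0) := by
      apply (c1_contOn hh).div (continuous_const.mul continuous_id).continuousOn
      intro r hr
      exact mul_ne_zero two_ne_zero (ne_of_gt hr)
    have a1 : GoodC (fun x => (F x ^ 2 * (fun r => h r / (2 * r)) ‖x‖
        + h ‖x‖ * (F x * Dr F x)) * χ1 ‖x‖) :=
      GoodC.mul_left (((P.F_cont.pow 2).mul (norm_contOn hc)).add
        ((norm_contOn (c1_contOn hh)).mul (P.F_cont.mul P.Dr_cont))) hχ.goodC1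
    have : R = fun x => (F x ^ 2 * (fun r => h r / (2 * r)) ‖x‖
        + h ‖x‖ * (F x * Dr F x)) * χ1 ‖x‖ := by
      ext x
      simp only [hR]
      ring
    rw [this]
    exact a1
  have hpt : ∫ x, (R x - 1 / 2 * E x) ≤
      ∫ x, (2 * ((F x ^ 2 * (1 / ‖x‖ ^ 2)) * k ‖x‖) + Dr F x ^ 2 * k ‖x‖
        + (F x * Dr F x) * k1 ‖x‖) := by
    apply integral_mono_ae (G6.sub (G5.const_mul _)).int
      (((G1.const_mul 2).add G2).add G3).int
    filter_upwards [ae_ne0] with x hx
    have h0 : 0 < ‖x‖ := norm_pos_iff.2 hx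
    have hb := hm.b3 _ h0
    have hpos := hm.pos _ h0
    set r := ‖x‖ with hr
    set f := F x with hf
    set d := Dr F x with hd
    have hq : 0 ≤ h r * (r * d + f / 2) ^ 2 + (r * h1 r) * f * (r * d + f / 2)
        + 9 / 4 * (h r * f ^ 2) := by
      set a := r * d + f / 2 with ha
      have hb' := abs_le.1 hb
      have h3 : 0 ≤ h r * (3 * h r + r * h1 r) := mul_nonneg hpos.le (by linarith)
      have h4 : 0 ≤ h r * (3 * h r - r * h1 r) := mul_nonneg hpos.le (by linarith)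
      have hb1 : 0 ≤ 3 * h r + r * h1 r := by linarith
      have hb2 : 0 ≤ 3 * h r - r * h1 r := by linarith
      -- 2*(..) = (3h + r h1)/3 * (a + 3f/2)^2 + (3h - r h1)/3 (a - 3f/2)^2
      nlinarith [mul_nonneg hb1 (sq_nonneg (a + 3 / 2 * f)),
        mul_nonneg hb2 (sq_nonneg (a - 3 / 2 * f))]
    have e6 : (2 * ((f ^ 2 * (1 / r ^ 2)) * k r) + d ^ 2 * k r + (f * d) * k1 r)
        - (R x - 1 / 2 * E x) = χ r / r ^ 2 * (h r * (r * d + f / 2) ^ 2
          + (r * h1 r) * f * (r * d + f / 2) + 9 / 4 * (h r * f ^ 2)) := by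
      simp only [hR, hE, hk, hk1, ← hr, ← hf, ← hd]
      field_simp
      ring
    have e7 : 0 ≤ χ r / r ^ 2 * (h r * (r * d + f / 2) ^ 2
          + (r * h1 r) * f * (r * d + f / 2) + 9 / 4 * (h r * f ^ 2)) :=
      mul_nonneg (div_nonneg (hχ0 r) (by positivity)) hq
    linarith
  rw [integral_sub G6.int (G5.const_mul _).int, integral_const_mul, e3, mul_zero, sub_zero,
    integral_add ((G1.const_mul 2).add G2).int G3.int,
    integral_add (G1.const_mul 2).int G2.int, integral_const_mul] at hpt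
  calc ∫ x, R x ≤ _ := hpt
    _ ≤ (∫ x, Gr2 F x * k ‖x‖) + ∫ x, (F x * Dr F x) * k1 ‖x‖ := by linarith
    _ = _ := hen.symm

end

/-- smooth step -/
theorem exists_cut : ∃ (χ χ1 : ℕ → ℝ → ℝ) (C : ℝ), 0 ≤ C ∧ (∀ n, RC (χ n) (χ1 n)) ∧
    (∀ n r, 0 ≤ χ n r ∧ χ n r ≤ 1) ∧ (∀ n r, 0 < r → |χ1 n r| ≤ C / r) ∧
    (∀ r, 0 < r → ∀ᶠ n in atTop, χ n r = 1 ∧ χ1 n r = 0) := by
  set η : ℝ → ℝ := fun t => Real.smoothTransition (t - 1) with hη
  have hsm : ContDiff ℝ 1 η := by
    have h1 : ContDiff ℝ 1 Real.smoothTransition := Real.smoothTransition.contDiff (n := 1)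
    exact h1.comp (contDiff_id.sub contDiff_const)
  have h0 : ∀ t, t ≤ 1 → η t = 0 := fun t ht => Real.smoothTransition.zero_of_nonpos (by linarith)
  have h1 : ∀ t, 2 ≤ t → η t = 1 := fun t ht => Real.smoothTransition.one_of_one_le (by linarith)
  have hnn : ∀ t, 0 ≤ η t := fun t => Real.smoothTransition.nonneg _
  have hle : ∀ t, η t ≤ 1 := fun t => Real.smoothTransition.le_one _
  have hd0 : ∀ t, t < 1 → deriv η t = 0 := by
    intro t ht
    have h2 : η =ᶠ[𝓝 t] fun _ => (0 : ℝ) := by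
      filter_upwards [gt_mem_nhds ht] with y hy
      exact h0 y hy.le
    rw [h2.deriv_eq]
    simp
  have hd2 : ∀ t, 2 < t → deriv η t = 0 := by
    intro t ht
    have h2 : η =ᶠ[𝓝 t] fun _ => (1 : ℝ) := by
      filter_upwards [lt_mem_nhds ht] with y hy
      exact h1 y hy.le
    rw [h2.deriv_eq]
    simp
  have hdc : Continuous (deriv η) := hsm.continuous_deriv (by norm_num)
  have hdcs : HasCompactSupport (deriv η) := by
    apply HasCompactSupport.intro (isCompact_Icc (a := (1 : ℝ)) (b := 2))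
    intro t ht
    by_cases h : t < 1
    · exact hd0 t h
    · apply hd2
      by_contra hc
      push Not at h hc
      exact ht ⟨h, hc⟩
  obtain ⟨C, hC⟩ := hdc.bounded_above_of_compact_support hdcs
  have hC0 : 0 ≤ C := (norm_nonneg _).trans (hC 0)
  have hder : ∀ t, HasDerivAt η (deriv η t) t := fun t =>
    ((hsm.differentiable (by norm_num)) t).hasDerivAt
  refine ⟨fun n r => η (((n : ℝ) + 2) * r) * (1 - η (r / ((n : ℝ) + 2))),
    fun n r => ((n : ℝ) + 2) * deriv η (((n : ℝ) + 2) * r) * (1 - η (r / ((n : ℝ) + 2)))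
      + η (((n : ℝ) + 2) * r) * (-(deriv η (r / ((n : ℝ) + 2)) * (1 / ((n : ℝ) + 2)))),
    4 * C, by positivity, ?_, ?_, ?_, ?_⟩
  · intro n
    have hn : (0 : ℝ) < (n : ℝ) + 2 := by positivity
    refine ⟨⟨fun r _ => ?_, ?_⟩, 1 / ((n : ℝ) + 2), 2 * ((n : ℝ) + 2), by positivity, ?_⟩
    · have a1 : HasDerivAt (fun r => η (((n : ℝ) + 2) * r))
          (((n : ℝ) + 2) * deriv η (((n : ℝ) + 2) * r)) r := by
        have := (hder (((n : ℝ) + 2) * r)).comp r ((hasDerivAt_id r).const_mul ((n : ℝ) + 2))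
        rw [mul_one, mul_comm] at this
        exact this
      have a2 : HasDerivAt (fun r => η (r / ((n : ℝ) + 2)))
          (deriv η (r / ((n : ℝ) + 2)) * (1 / ((n : ℝ) + 2))) r :=
        HasDerivAt.comp (h₂ := η) (h := fun r : ℝ => r / ((n : ℝ) + 2)) r
          (hder (r / ((n : ℝ) + 2))) ((hasDerivAt_id r).div_const ((n : ℝ) + 2))
      have a3 : HasDerivAt (fun r => 1 - η (r / ((n : ℝ) + 2)))
          (-(deriv η (r / ((n : ℝ) + 2)) * (1 / ((n : ℝ) + 2)))) r := a2.const_sub 1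
      exact a1.mul a3
    · apply Continuous.continuousOn
      fun_prop
    · intro r hr
      have hz : η (((n : ℝ) + 2) * r) = 0 ∧ deriv η (((n : ℝ) + 2) * r) = 0 ∨
          (1 - η (r / ((n : ℝ) + 2)) = 0 ∧ deriv η (r / ((n : ℝ) + 2)) = 0) := by
        rcases hr with hr | hr
        · left
          have : ((n : ℝ) + 2) * r < 1 := by
            rw [lt_div_iff₀ hn] at hr
            linarith
          exact ⟨h0 _ this.le, hd0 _ this⟩
        · right
          have : 2 < r / ((n : ℝ) + 2) := by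
            rw [lt_div_iff₀ hn]
            exact hr
          exact ⟨by rw [h1 _ this.le]; ring, hd2 _ this⟩
      rcases hz with ⟨z1, z2⟩ | ⟨z1, z2⟩
      · simp only [z1, z2]
        constructor <;> ring
      · simp only [z1, z2]
        constructor <;> ring
  · intro n r
    refine ⟨mul_nonneg (hnn _) (by linarith [hle (r / ((n : ℝ) + 2))]), ?_⟩
    calc η (((n : ℝ) + 2) * r) * (1 - η (r / ((n : ℝ) + 2))) ≤ 1 * 1 := by
          apply mul_le_mul (hle _) (by linarith [hnn (r / ((n : ℝ) + 2))])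
            (by linarith [hle (r / ((n : ℝ) + 2))]) zero_le_one
      _ = 1 := one_mul 1
  · intro n r hr
    have hn : (0 : ℝ) < (n : ℝ) + 2 := by positivity
    have b1 : |((n : ℝ) + 2) * deriv η (((n : ℝ) + 2) * r) * (1 - η (r / ((n : ℝ) + 2)))| ≤
        2 * C / r := by
      rw [abs_mul, abs_mul, abs_of_pos hn, abs_of_nonneg (by linarith [hle (r / ((n : ℝ) + 2))] :
        0 ≤ 1 - η (r / ((n : ℝ) + 2)))]
      have hc2 : ((n : ℝ) + 2) * |deriv η (((n : ℝ) + 2) * r)| ≤ 2 * C / r := by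
        by_cases hz : deriv η (((n : ℝ) + 2) * r) = 0
        · rw [hz, abs_zero, mul_zero]
          positivity
        · have h3 : ((n : ℝ) + 2) * r ≤ 2 := by
            by_contra hc
            push Not at hc
            exact hz (hd2 _ hc)
          have h4 : (n : ℝ) + 2 ≤ 2 / r := by
            rw [le_div_iff₀ hr]
            exact h3
          calc ((n : ℝ) + 2) * |deriv η (((n : ℝ) + 2) * r)| ≤ 2 / r * C :=
                mul_le_mul h4 (hC _) (abs_nonneg _) (by positivity)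
            _ = 2 * C / r := by ring
      calc ((n : ℝ) + 2) * |deriv η (((n : ℝ) + 2) * r)| * (1 - η (r / ((n : ℝ) + 2)))
          ≤ 2 * C / r * 1 := by
            apply mul_le_mul hc2 (by linarith [hnn (r / ((n : ℝ) + 2))])
              (by linarith [hle (r / ((n : ℝ) + 2))]) (by positivity)
        _ = 2 * C / r := mul_one _
    have b2 : |η (((n : ℝ) + 2) * r) * (-(deriv η (r / ((n : ℝ) + 2)) * (1 / ((n : ℝ) + 2))))| ≤
        2 * C / r := by
      rw [abs_mul, abs_neg, abs_mul, abs_of_nonneg (hnn _),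
        abs_of_pos (by positivity : (0 : ℝ) < 1 / ((n : ℝ) + 2))]
      have hc2 : |deriv η (r / ((n : ℝ) + 2))| * (1 / ((n : ℝ) + 2)) ≤ 2 * C / r := by
        by_cases hz : deriv η (r / ((n : ℝ) + 2)) = 0
        · rw [hz, abs_zero, zero_mul]
          positivity
        · have h3 : r / ((n : ℝ) + 2) ≤ 2 := by
            by_contra hc
            push Not at hc
            exact hz (hd2 _ hc)
          have h4 : 1 / ((n : ℝ) + 2) ≤ 2 / r := by
            rw [div_le_iff₀ hn] at h3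
            rw [div_le_div_iff₀ hn hr]
            linarith
          calc |deriv η (r / ((n : ℝ) + 2))| * (1 / ((n : ℝ) + 2)) ≤ C * (2 / r) :=
                mul_le_mul (hC _) h4 (by positivity) hC0
            _ = 2 * C / r := by ring
      calc η (((n : ℝ) + 2) * r) * (|deriv η (r / ((n : ℝ) + 2))| * (1 / ((n : ℝ) + 2)))
          ≤ 1 * (2 * C / r) := mul_le_mul (hle _) hc2 (by positivity) zero_le_one
        _ = 2 * C / r := one_mul _
    calc _ ≤ 2 * C / r + 2 * C / r := (abs_add_le _ _).trans (add_le_add b1 b2)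
      _ = 4 * C / r := by ring
  · intro r hr
    obtain ⟨N, hN⟩ := exists_nat_ge (max (2 / r) r)
    filter_upwards [eventually_ge_atTop N] with n hn
    have hn1 : (N : ℝ) ≤ n := by exact_mod_cast hn
    have hn0 : (0 : ℝ) < (n : ℝ) + 2 := by positivity
    have c1 : 2 < ((n : ℝ) + 2) * r := by
      have : 2 / r < (n : ℝ) + 2 := by
        have := (le_max_left (2 / r) r).trans hN
        linarith
      rw [div_lt_iff₀ hr] at this
      exact this
    have c2 : r / ((n : ℝ) + 2) < 1 := by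
      rw [div_lt_one hn0]
      have := (le_max_right (2 / r) r).trans hN
      linarith
    rw [h1 _ c1.le, h0 _ c2.le, hd2 _ c1, hd0 _ c2]
    constructor <;> ring

theorem Pot.Dr_bound {ρ U : E3 → ℝ} {V v : ℝ → ℝ} {C : ℝ} (P : Pot ρ U V v C) {x : E3}
    (hx : x ≠ 0) : |Dr (fun x => U x - V ‖x‖) x| ≤ 4 * C / (1 + ‖x‖) ^ 2 := by
  have h0 : 0 < ‖x‖ := norm_pos_iff.2 hx
  have hc : ∀ i, |x i / ‖x‖| ≤ 1 := by
    intro i
    rw [abs_div, abs_norm, div_le_one h0]
    exact PiLp.norm_apply_le x i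
  have e : Dr (fun x => U x - V ‖x‖) x = (∑ i, x i / ‖x‖ * pd i U x) - v ‖x‖ := by
    unfold Dr
    simp only [P.pdF hx]
    have h1 := sum_dir hx
    simp only [Fin.sum_univ_three] at h1 ⊢
    linear_combination (-v ‖x‖) * h1
  rw [e]
  have h1 : ∀ i, |x i / ‖x‖ * pd i U x| ≤ C / (1 + ‖x‖) ^ 2 := by
    intro i
    rw [abs_mul]
    calc |x i / ‖x‖| * |pd i U x| ≤ 1 * (C / (1 + ‖x‖) ^ 2) :=
          mul_le_mul (hc i) ((P.bU x).2 i) (abs_nonneg _) zero_le_one
      _ = _ := one_mul _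
  have h2 := (P.bV _ h0).2
  have h3 : |∑ i, x i / ‖x‖ * pd i U x| ≤ 3 * (C / (1 + ‖x‖) ^ 2) := by
    refine (Finset.abs_sum_le_sum_abs _ _).trans ?_
    refine (Finset.sum_le_sum fun i _ => h1 i).trans ?_
    simp
  calc _ ≤ |∑ i, x i / ‖x‖ * pd i U x| + |v ‖x‖| := abs_sub _ _
    _ ≤ 3 * (C / (1 + ‖x‖) ^ 2) + C / (1 + ‖x‖) ^ 2 := add_le_add h3 h2
    _ = _ := by ring

theorem Pot.F_bound {ρ U : E3 → ℝ} {V v : ℝ → ℝ} {C : ℝ} (P : Pot ρ U V v C) {x : E3}
    (hx : x ≠ 0) : |U x - V ‖x‖| ≤ 2 * C / (1 + ‖x‖) := by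
  have h0 : 0 < ‖x‖ := norm_pos_iff.2 hx
  calc _ ≤ |U x| + |V ‖x‖| := abs_sub _ _
    _ ≤ C / (1 + ‖x‖) + C / (1 + ‖x‖) := add_le_add (P.bU x).1 (P.bV _ h0).1
    _ = _ := by ring

theorem int_dom : Integrable (fun x : E3 => 1 / (‖x‖ ^ 2 * (1 + ‖x‖ ^ 2))) := by
  have h := (integrable_fun_norm_addHaar (volume : Measure E3)
    (f := fun r : ℝ => 1 / (r ^ 2 * (1 + r ^ 2)))).2
  apply h
  have h2 : IntegrableOn (fun x : ℝ => (1 + x ^ 2)⁻¹) (Ioi 0) :=
    integrable_inv_one_add_sq.integrableOn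
  refine h2.congr_fun (fun r hr => ?_) measurableSet_Ioi
  have hr0 : (0 : ℝ) < r := hr
  simp only [finrank_euclideanSpace, Fintype.card_fin, smul_eq_mul]
  norm_num
  field_simp

theorem Pot.final {ρ U : E3 → ℝ} {V v : ℝ → ℝ} {C : ℝ} (P : Pot ρ U V v C) (hpoin : T_poin)
    {h h1 : ℝ → ℝ} (hm : Mult h h1) (hb : ∃ C, ∀ r, 0 ≤ r → h r ≤ C) :
    0 ≤ ∫ x, h ‖x‖ * ρ x * (U x - V ‖x‖) := by
  obtain ⟨B, hB⟩ := hb
  obtain ⟨χ, χ1, K, hK0, hRC, hχ, hχ1, hlim⟩ := exists_cut
  have hC0 : 0 ≤ C := by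
    have := (abs_nonneg _).trans (P.bU 0).1
    simpa using this
  have hB0 : 0 ≤ B := (hm.pos 1 one_pos).le.trans (hB 1 zero_le_one)
  set F : E3 → ℝ := fun x => U x - V ‖x‖ with hF
  have hhc : Continuous (fun x : E3 => h ‖x‖) :=
    hm.cont.comp_continuous continuous_norm (fun x => norm_nonneg x)
  have hFm : AEStronglyMeasurable F volume := by
    have h1 : AEStronglyMeasurable F (volume.restrict {x : E3 | x ≠ 0}) :=
      P.F_cont.aestronglyMeasurable isOpen_ne0.measurableSet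
    have h2 : (volume : Measure E3).restrict {x : E3 | x ≠ 0} = volume :=
      Measure.restrict_eq_self_of_ae_mem ae_ne0
    rwa [h2] at h1
  have hDm : AEStronglyMeasurable (Dr F) volume := by
    have h1 : AEStronglyMeasurable (Dr F) (volume.restrict {x : E3 | x ≠ 0}) :=
      P.Dr_cont.aestronglyMeasurable isOpen_ne0.measurableSet
    have h2 : (volume : Measure E3).restrict {x : E3 | x ≠ 0} = volume :=
      Measure.restrict_eq_self_of_ae_mem ae_ne0
    rwa [h2] at h1
  -- left side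
  have L : Tendsto (fun n => ∫ x, χ1 n ‖x‖ * (h ‖x‖ * F x ^ 2 / (2 * ‖x‖)
      + h ‖x‖ * F x * Dr F x)) atTop (𝓝 (∫ x : E3, (0 : ℝ))) := by
    apply tendsto_integral_of_dominated_convergence
      (fun x => (K * B * (2 * C) * (5 * C)) * (1 / (‖x‖ ^ 2 * (1 + ‖x‖ ^ 2))))
    · intro n
      apply (hRC n).goodC1.cont.aestronglyMeasurable.mul
      apply AEStronglyMeasurable.add
      · have hinv : AEStronglyMeasurable (fun x : E3 => (2 * ‖x‖)⁻¹) volume := by
          apply Measurable.aestronglyMeasurable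
          fun_prop
        simp only [div_eq_mul_inv]
        exact (hhc.aestronglyMeasurable.mul (hFm.pow 2)).mul hinv
      · exact (hhc.aestronglyMeasurable.mul hFm).mul hDm
    · exact int_dom.const_mul _
    · intro n
      filter_upwards [ae_ne0] with x hx
      have h0 : 0 < ‖x‖ := norm_pos_iff.2 hx
      have f1 := P.F_bound hx
      have f2 := P.Dr_bound hx
      have f3 := hχ1 n _ h0
      have f4 := hB _ h0.le
      have f5 := (hm.pos _ h0).le
      change |U x - V ‖x‖| ≤ _ at f1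
      rw [Real.norm_eq_abs, abs_mul]
      set r := ‖x‖ with hr
      have g1 : |h r * F x ^ 2 / (2 * r) + h r * F x * Dr F x| ≤
          B * (2 * C) * (5 * C) / (r * (1 + r ^ 2)) := by
        have k1 : |h r * F x ^ 2 / (2 * r)| ≤ B * (2 * C / (1 + r)) ^ 2 / (2 * r) := by
          rw [abs_div, abs_mul, abs_pow, abs_of_nonneg f5, abs_of_pos (by positivity : 0 < 2 * r)]
          gcongr
        have k2 : |h r * F x * Dr F x| ≤ B * (2 * C / (1 + r)) * (4 * C / (1 + r) ^ 2) := by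
          rw [abs_mul, abs_mul, abs_of_nonneg f5]
          gcongr
        refine (abs_add_le _ _).trans ((add_le_add k1 k2).trans ?_)
        have k3 : B * (2 * C / (1 + r)) ^ 2 / (2 * r) + B * (2 * C / (1 + r)) * (4 * C / (1 + r) ^ 2)
            = B * (2 * C) * C * ((1 + r) + 4 * r) / (r * (1 + r) ^ 3) := by
          field_simp
        rw [k3, div_le_div_iff₀ (by positivity) (by positivity)]
        have k4 : ((1 + r) + 4 * r) * (1 + r ^ 2) ≤ 5 * (1 + r) ^ 3 := by
          nlinarith [h0, mul_pos h0 h0, mul_pos (mul_pos h0 h0) h0]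
        have k5 : 0 ≤ B * (2 * C) * C * r := by positivity
        nlinarith [mul_le_mul_of_nonneg_left k4 k5]
      calc |χ1 n r| * |h r * F x ^ 2 / (2 * r) + h r * F x * Dr F x|
          ≤ K / r * (B * (2 * C) * (5 * C) / (r * (1 + r ^ 2))) :=
            mul_le_mul f3 g1 (abs_nonneg _) (by positivity)
        _ = _ := by
            field_simp
    · filter_upwards [ae_ne0] with x hx
      have h0 : 0 < ‖x‖ := norm_pos_iff.2 hx
      apply tendsto_const_nhds.congr'
      filter_upwards [hlim _ h0] with n hn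
      rw [hn.2, zero_mul]
  -- right side
  have hρi : Integrable ρ := P.rc.integrable_of_hasCompactSupport P.rs
  have R : Tendsto (fun n => 4 * π * ∫ x, (ρ x * F x) * (h ‖x‖ * χ n ‖x‖)) atTop
      (𝓝 (4 * π * ∫ x, (ρ x * F x) * (h ‖x‖ * 1))) := by
    apply Tendsto.const_mul
    apply tendsto_integral_of_dominated_convergence (fun x => (2 * C * B) * |ρ x|)
    · intro n
      exact (P.rc.aestronglyMeasurable.mul hFm).mul
        (hhc.aestronglyMeasurable.mul (hRC n).goodC.cont.aestronglyMeasurable)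
    · exact hρi.abs.const_mul _
    · intro n
      filter_upwards [ae_ne0] with x hx
      have h0 : 0 < ‖x‖ := norm_pos_iff.2 hx
      have f1 : |F x| ≤ 2 * C := by
        refine (P.F_bound hx).trans ?_
        rw [div_le_iff₀ (by positivity)]
        nlinarith
      have f4 := hB _ h0.le
      have f5 := (hm.pos _ h0).le
      rw [Real.norm_eq_abs, abs_mul, abs_mul, abs_mul, abs_of_nonneg f5,
        abs_of_nonneg (hχ n ‖x‖).1]
      calc |ρ x| * |F x| * (h ‖x‖ * χ n ‖x‖) ≤ |ρ x| * (2 * C) * (B * 1) := by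
            apply mul_le_mul
            · exact mul_le_mul_of_nonneg_left f1 (abs_nonneg _)
            · exact mul_le_mul f4 (hχ n ‖x‖).2 (hχ n ‖x‖).1 hB0
            · exact mul_nonneg f5 (hχ n ‖x‖).1
            · positivity
        _ = _ := by ring
    · filter_upwards [ae_ne0] with x hx
      have h0 : 0 < ‖x‖ := norm_pos_iff.2 hx
      apply tendsto_const_nhds.congr'
      filter_upwards [hlim _ h0] with n hn
      rw [hn.1]
  rw [integral_zero] at L
  have hfin := le_of_tendsto_of_tendsto' L R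
    (fun n => P.ineq hpoin hm (hRC n) (fun r => (hχ n r).1))
  have hpi : 0 < 4 * π := by positivity
  have e : ∫ x, h ‖x‖ * ρ x * (U x - V ‖x‖) = ∫ x, (ρ x * F x) * (h ‖x‖ * 1) := by
    apply integral_congr_ae
    refine Filter.Eventually.of_forall fun x => ?_
    simp only [hF]
    ring
  rw [e]
  exact nonneg_of_mul_nonneg_right hfin hpi

theorem mpt (hpot : T_pot) (hubar : T_ubar) (hnewt : T_newt2) (hpoin : T_poin) : T_mpt := by
  intro ρ hρ h h1 hm hb
  obtain ⟨p1, p2, C1', p3⟩ := hpot ρ hρ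
  obtain ⟨v, C2', v1, v2⟩ := hubar ρ hρ
  have hρc : Continuous ρ := hρ.1.continuous
  have hV0 : ContinuousOn (Ubp ρ) (Ioi 0) := c1_contOn v1
  have P : Pot ρ (Up ρ) (Ubp ρ) v (max C1' C2') := by
    refine ⟨hρc, hρ.2, p1, p2, fun x => ⟨(p3 x).1.trans ?_, fun i => ((p3 x).2 i).trans ?_⟩, v1,
      fun r hr => ⟨(v2 r hr).1.trans ?_, (v2 r hr).2.trans ?_⟩, fun f f1 f2 f3 => ?_⟩
    · gcongr
      exact le_max_left _ _
    · gcongr
      exact le_max_left _ _
    · gcongr
      exact le_max_right _ _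
    · gcongr
      exact le_max_right _ _
    · have hs : ∃ a b : ℝ, 0 < a ∧ ∀ x : E3, (‖x‖ < a ∨ b < ‖x‖) → f ‖x‖ = 0 := by
        have hcomp : IsCompact (tsupport f) := f2
        by_cases hne : (tsupport f).Nonempty
        · obtain ⟨a, ha, hamin⟩ := hcomp.exists_isLeast hne
          obtain ⟨b, hb', hbmax⟩ := hcomp.exists_isGreatest hne
          refine ⟨a, b, f3 ha, fun x hx => ?_⟩
          by_contra hc
          have hmem : ‖x‖ ∈ tsupport f := subset_tsupport _ hc
          rcases hx with hx | hx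
          · exact absurd (hamin hmem) (not_le.2 hx)
          · exact absurd (hbmax hmem) (not_le.2 hx)
        · refine ⟨1, 1, one_pos, fun x _ => ?_⟩
          by_contra hc
          exact hne ⟨_, subset_tsupport _ hc⟩
      have i0 : GoodC (fun x : E3 => f ‖x‖) := by
        obtain ⟨a, b, ha, hab⟩ := hs
        exact ⟨(f1.comp continuous_norm).continuousOn, a, b, ha, hab⟩
      have i1 : Integrable (fun x : E3 => f ‖x‖ * Up ρ x) := by
        have := (GoodC.mul_left p1.continuous.continuousOn i0).int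
        refine this.congr (Filter.Eventually.of_forall fun x => ?_)
        simp only
        ring
      have i2 : Integrable (fun x : E3 => f ‖x‖ * Ubp ρ ‖x‖) := by
        have := (GoodC.mul_left (norm_contOn hV0) i0).int
        refine this.congr (Filter.Eventually.of_forall fun x => ?_)
        simp only
        ring
      simp only [mul_sub]
      rw [integral_sub i1 i2, hnewt ρ hρ f f1 f2 f3, sub_self]
  exact P.final hpoin hm hb

end Pool.Agent.H56.HN
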