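import Pool.Agent.H99.HN.Targets

/-! Module MPT, part 1: calculus of functions that are `C¹` off the origin. -/

set_option autoImplicit false

namespace Pool.Agent.H56.HN

open MeasureTheory Set Filter Topology Real
open scoped ContDiff ENNReal
open Pool.Agent.H99.HM Pool.Agent.H99.HN

theorem hasFDerivAt_norm {x : E3} (hx : x ≠ 0) :
    HasFDerivAt (fun y : E3 => ‖y‖) (‖x‖⁻¹ • innerSL ℝ x) x := by
  have h0 : 0 < ‖x‖ := norm_pos_iff.2 hx
  have h1 : HasFDerivAt (fun y : E3 => ‖y‖ ^ 2) (2 • innerSL ℝ x) x :=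
    (hasStrictFDerivAt_norm_sq x).hasFDerivAt
  have h2 := h1.sqrt (pow_ne_zero 2 h0.ne')
  have e1 : (fun y : E3 => √(‖y‖ ^ 2)) = fun y => ‖y‖ := by
    ext y
    exact Real.sqrt_sq (norm_nonneg y)
  rw [e1, Real.sqrt_sq h0.le] at h2
  have e2 : (1 / (2 * ‖x‖)) • 2 • innerSL ℝ x = ‖x‖⁻¹ • innerSL ℝ x := by
    rw [← Nat.cast_smul_eq_nsmul ℝ, smul_smul]
    congr 1
    push_cast
    field_simp
  rw [e2] at h2
  exact h2

theorem innerSL_single (x : E3) (i : Fin 3) :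
    (innerSL ℝ x) (EuclideanSpace.single i 1) = x i := by
  simp [EuclideanSpace.inner_single_right]

/-- derivative of a radial function -/
theorem rad_der {h : ℝ → ℝ} {c : ℝ} {x : E3} (hx : x ≠ 0) (hh : HasDerivAt h c ‖x‖) :
    HasFDerivAt (fun y : E3 => h ‖y‖) (c • (‖x‖⁻¹ • innerSL ℝ x)) x :=
  hh.comp_hasFDerivAt x (hasFDerivAt_norm hx)

theorem pd_rad' {h : ℝ → ℝ} {c : ℝ} {x : E3} (hx : x ≠ 0) (hh : HasDerivAt h c ‖x‖) (i : Fin 3) :
    pd i (fun y : E3 => h ‖y‖) x = c * (x i / ‖x‖) := by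
  unfold pd
  rw [(rad_der hx hh).fderiv, smul_apply, smul_apply, innerSL_single, smul_eq_mul, smul_eq_mul]
  field_simp

theorem pd_mul' {f g : E3 → ℝ} {x : E3} (hf : DifferentiableAt ℝ f x)
    (hg : DifferentiableAt ℝ g x) (i : Fin 3) :
    pd i (fun y => f y * g y) x = f x * pd i g x + pd i f x * g x := by
  unfold pd
  have : fderiv ℝ (fun y => f y * g y) x = _ := (hf.hasFDerivAt.mul hg.hasFDerivAt).fderiv
  rw [this]
  simp only [add_apply, smul_apply, smul_eq_mul]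
  ring

theorem pd_sub' {f g : E3 → ℝ} {x : E3} (hf : DifferentiableAt ℝ f x)
    (hg : DifferentiableAt ℝ g x) (i : Fin 3) :
    pd i (fun y => f y - g y) x = pd i f x - pd i g x := by
  unfold pd
  have : fderiv ℝ (fun y => f y - g y) x = _ := (hf.hasFDerivAt.sub hg.hasFDerivAt).fderiv
  rw [this]
  simp only [sub_apply]

theorem pd_coord (i : Fin 3) (x : E3) : pd i (fun y : E3 => y i) x = 1 := by
  unfold pd
  have h1 : HasFDerivAt (fun y : E3 => y i) (EuclideanSpace.proj i : E3 →L[ℝ] ℝ) x :=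
    (EuclideanSpace.proj i : E3 →L[ℝ] ℝ).hasFDerivAt
  rw [h1.fderiv]
  simp

theorem sum_dir {x : E3} (hx : x ≠ 0) : ∑ i, (x i / ‖x‖) ^ 2 = 1 := by
  have h0 : 0 < ‖x‖ := norm_pos_iff.2 hx
  have h1 := EuclideanSpace.norm_sq_eq x
  simp only [Real.norm_eq_abs, sq_abs] at h1
  simp only [div_pow]
  rw [← Finset.sum_div, ← h1, div_self (pow_ne_zero 2 h0.ne')]

/-- `C1` functions are `C¹` in the sense of Mathlib -/
theorem c1_cd {h h1 : ℝ → ℝ} (H : C1 h h1) : ContDiffOn ℝ 1 h (Ioi 0) := by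
  have := (contDiffOn_succ_iff_deriv_of_isOpen (𝕜 := ℝ) (n := 0) (f := h) (s := Ioi 0)
    isOpen_Ioi).2 ⟨fun r hr => (H.der r hr).differentiableAt.differentiableWithinAt,
      fun h => by simp at h, by
        rw [contDiffOn_zero]
        exact H.cont.congr (fun r hr => (H.der r hr).deriv)⟩
  simpa using this

theorem c1_cdn {h h1 : ℝ → ℝ} (H : C1 h h1) : ContDiffOn ℝ 1 (fun x : E3 => h ‖x‖) {x | x ≠ 0} := by
  have h2 : ContDiffOn ℝ 1 (fun x : E3 => ‖x‖) {x | x ≠ 0} :=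
    ContDiffOn.norm ℝ contDiffOn_id (fun x hx => hx)
  exact (c1_cd H).comp h2 (fun x hx => norm_pos_iff.2 hx)

theorem c1_mul {h h1 g g1 : ℝ → ℝ} (H : C1 h h1) (K : C1 g g1) :
    C1 (fun r => h r * g r) (fun r => h1 r * g r + h r * g1 r) where
  der := fun r hr => (H.der r hr).mul (K.der r hr)
  cont := by
    have c1 : ContinuousOn h (Ioi 0) := fun r hr =>
      (H.der r hr).continuousAt.continuousWithinAt
    have c2 : ContinuousOn g (Ioi 0) := fun r hr =>
      (K.der r hr).continuousAt.continuousWithinAt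
    exact (H.cont.mul c2).add (c1.mul K.cont)

theorem c1_contOn {h h1 : ℝ → ℝ} (H : C1 h h1) : ContinuousOn h (Ioi 0) := fun r hr =>
  (H.der r hr).continuousAt.continuousWithinAt

theorem c1_inv : C1 (fun r => 1 / r) (fun r => -(1 / r ^ 2)) where
  der := fun r hr => by
    have := hasDerivAt_inv hr.ne'
    simp only [one_div]
    exact this
  cont := by
    apply ContinuousOn.neg
    apply ContinuousOn.div continuousOn_const (continuousOn_pow 2)
    intro r hr
    exact pow_ne_zero 2 (ne_of_gt hr)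

theorem isOpen_ne0 : IsOpen {x : E3 | x ≠ 0} := isOpen_ne

/-- `C¹` off the origin, and vanishing near the origin and near infinity -/
structure Good (w : E3 → ℝ) : Prop where
  cd : ContDiffOn ℝ 1 w {x | x ≠ 0}
  supp : ∃ a b : ℝ, 0 < a ∧ ∀ x, (‖x‖ < a ∨ b < ‖x‖) → w x = 0

/-- continuity version -/
structure GoodC (w : E3 → ℝ) : Prop where
  cd : ContinuousOn w {x | x ≠ 0}
  supp : ∃ a b : ℝ, 0 < a ∧ ∀ x, (‖x‖ < a ∨ b < ‖x‖) → w x = 0

theorem GoodC.cont {w : E3 → ℝ} (h : GoodC w) : Continuous w := by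
  obtain ⟨a, b, ha, hab⟩ := h.supp
  rw [continuous_iff_continuousAt]
  intro x
  by_cases hx : x = 0
  · subst hx
    have h1 : w =ᶠ[𝓝 0] fun _ => (0 : ℝ) := by
      filter_upwards [Metric.ball_mem_nhds (0 : E3) ha] with y hy
      exact hab y (Or.inl (by simpa using hy))
    exact (continuousAt_congr h1).2 continuousAt_const
  · exact (h.cd x hx).continuousAt (isOpen_ne0.mem_nhds hx)

theorem GoodC.cs {w : E3 → ℝ} (h : GoodC w) : HasCompactSupport w := by
  obtain ⟨a, b, ha, hab⟩ := h.supp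
  apply HasCompactSupport.intro (isCompact_closedBall (0 : E3) b)
  intro x hx
  apply hab x
  right
  simpa using hx

theorem GoodC.int {w : E3 → ℝ} (h : GoodC w) : Integrable w :=
  h.cont.integrable_of_hasCompactSupport h.cs

theorem Good.goodC {w : E3 → ℝ} (h : Good w) : GoodC w := ⟨h.cd.continuousOn, h.supp⟩

theorem Good.contDiff {w : E3 → ℝ} (h : Good w) : ContDiff ℝ 1 w := by
  obtain ⟨a, b, ha, hab⟩ := h.supp
  rw [contDiff_iff_contDiffAt]
  intro x
  by_cases hx : x = 0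
  · subst hx
    have h1 : w =ᶠ[𝓝 0] fun _ => (0 : ℝ) := by
      filter_upwards [Metric.ball_mem_nhds (0 : E3) ha] with y hy
      exact hab y (Or.inl (by simpa using hy))
    exact contDiffAt_const.congr_of_eventuallyEq h1
  · exact (h.cd x hx).contDiffAt (isOpen_ne0.mem_nhds hx)

theorem Good.pd_goodC {w : E3 → ℝ} (h : Good w) (i : Fin 3) : GoodC (pd i w) := by
  obtain ⟨a, b, ha, hab⟩ := h.supp
  refine ⟨?_, a, b, ha, ?_⟩
  · have h1 : Continuous (fderiv ℝ w) := h.contDiff.continuous_fderiv (by norm_num)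
    exact (h1.clm_apply continuous_const).continuousOn
  · intro x hx
    have h1 : w =ᶠ[𝓝 x] fun _ => (0 : ℝ) := by
      rcases hx with hx | hx
      · filter_upwards [(isOpen_lt continuous_norm continuous_const).mem_nhds hx] with y hy
        exact hab y (Or.inl hy)
      · filter_upwards [(isOpen_lt continuous_const continuous_norm).mem_nhds hx] with y hy
        exact hab y (Or.inr hy)
    unfold pd
    rw [h1.fderiv_eq]
    simp

theorem Good.int_pd {w : E3 → ℝ} (h : Good w) (i : Fin 3) : ∫ x, pd i w x = 0 := by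
  have h1 := integral_mul_fderiv_eq_neg_fderiv_mul_of_integrable (μ := (volume : Measure E3))
    (f := fun _ => (1 : ℝ)) (g := w) (v := EuclideanSpace.single i 1) (by simp)
    (by simp only [one_mul]; exact (h.pd_goodC i).int) (by simpa using h.goodC.int)
    (fun x _ => differentiableAt_const _)
    (fun x _ => (h.contDiff.differentiable (by norm_num)).differentiableAt)
  simp only [one_mul, fderiv_fun_const, Pi.zero_apply, zero_apply, zero_mul,
    integral_zero, neg_zero] at h1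
  exact h1

theorem ae_ne0 : ∀ᵐ x : E3, x ≠ 0 := by
  rw [ae_iff]
  simp

theorem Good.mul_left {f w : E3 → ℝ} (hf : ContDiffOn ℝ 1 f {x | x ≠ 0}) (h : Good w) :
    Good (fun x => f x * w x) := by
  obtain ⟨a, b, ha, hab⟩ := h.supp
  exact ⟨hf.mul h.cd, a, b, ha, fun x hx => by rw [hab x hx, mul_zero]⟩

theorem GoodC.mul_left {f w : E3 → ℝ} (hf : ContinuousOn f {x | x ≠ 0}) (h : GoodC w) :
    GoodC (fun x => f x * w x) := by
  obtain ⟨a, b, ha, hab⟩ := h.supp
  exact ⟨hf.mul h.cd, a, b, ha, fun x hx => by rw [hab x hx, mul_zero]⟩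

/-- radial cut-off functions -/
structure RC (k k1 : ℝ → ℝ) : Prop where
  c1 : C1 k k1
  supp : ∃ a b : ℝ, 0 < a ∧ ∀ r, (r < a ∨ b < r) → k r = 0 ∧ k1 r = 0

theorem RC.good {k k1 : ℝ → ℝ} (h : RC k k1) : Good (fun x => k ‖x‖) := by
  obtain ⟨a, b, ha, hab⟩ := h.supp
  exact ⟨c1_cdn h.c1, a, b, ha, fun x hx => (hab _ hx).1⟩

theorem RC.mul {k k1 f f1 : ℝ → ℝ} (h : RC k k1) (hf : C1 f f1) :
    RC (fun r => f r * k r) (fun r => f1 r * k r + f r * k1 r) := by
  refine ⟨c1_mul hf h.c1, ?_⟩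
  obtain ⟨a, b, ha, hab⟩ := h.supp
  exact ⟨a, b, ha, fun r hr => by simp [(hab r hr).1, (hab r hr).2]⟩

theorem GoodC.add {f g : E3 → ℝ} (hf : GoodC f) (hg : GoodC g) : GoodC (fun x => f x + g x) := by
  obtain ⟨a, b, ha, hab⟩ := hf.supp
  obtain ⟨c, d, hc, hcd⟩ := hg.supp
  refine ⟨hf.cd.add hg.cd, min a c, max b d, lt_min ha hc, fun x hx => ?_⟩
  have h1 : f x = 0 := hab x (hx.imp (fun h => h.trans_le (min_le_left _ _))
    (fun h => (le_max_left _ _).trans_lt h))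
  have h2 : g x = 0 := hcd x (hx.imp (fun h => h.trans_le (min_le_right _ _))
    (fun h => (le_max_right _ _).trans_lt h))
  rw [h1, h2, add_zero]

theorem GoodC.const_mul {f : E3 → ℝ} (hf : GoodC f) (c : ℝ) : GoodC (fun x => c * f x) :=
  GoodC.mul_left continuousOn_const hf

theorem GoodC.sub {f g : E3 → ℝ} (hf : GoodC f) (hg : GoodC g) : GoodC (fun x => f x - g x) := by
  have := hf.add (hg.const_mul (-1))
  simpa [sub_eq_add_neg] using this

theorem GoodC.sum {f : Fin 3 → E3 → ℝ} (hf : ∀ i, GoodC (f i)) : GoodC (fun x => ∑ i, f i x) := by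
  simp only [Fin.sum_univ_three]
  exact ((hf 0).add (hf 1)).add (hf 2)

theorem norm_contOn {f : ℝ → ℝ} (hf : ContinuousOn f (Ioi 0)) :
    ContinuousOn (fun x : E3 => f ‖x‖) {x | x ≠ 0} :=
  hf.comp continuous_norm.continuousOn (fun x hx => norm_pos_iff.2 hx)

theorem RC.goodC {k k1 : ℝ → ℝ} (h : RC k k1) : GoodC (fun x => k ‖x‖) := h.good.goodC

theorem RC.goodC1 {k k1 : ℝ → ℝ} (h : RC k k1) : GoodC (fun x => k1 ‖x‖) := by
  obtain ⟨a, b, ha, hab⟩ := h.supp
  exact ⟨norm_contOn h.c1.cont, a, b, ha, fun x hx => (hab _ hx).2⟩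

/-- multiplication of a radial cut-off by a continuous function of the radius -/
theorem radC {f k : ℝ → ℝ} (hf : ContinuousOn f (Ioi 0)) (hk : ContinuousOn k (Ioi 0))
    (hs : ∃ a b : ℝ, 0 < a ∧ ∀ r, 0 < r → (r < a ∨ b < r) → k r = 0) :
    ∃ g : ℝ → ℝ, Continuous g ∧ HasCompactSupport g ∧ tsupport g ⊆ Ioi 0 ∧
      (∀ r, 0 < r → g r = f r * k r) ∧ ∀ r, r ≤ 0 → g r = 0 := by
  obtain ⟨a, b, ha, hab⟩ := hs
  have hsupp : Function.support (fun r => if 0 < r then f r * k r else 0) ⊆ Icc a b := by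
    intro r hr
    by_contra hcon
    apply hr
    simp only
    split_ifs with h0
    · rw [hab r h0, mul_zero]
      by_contra hc
      push Not at hc
      exact hcon ⟨hc.1, hc.2⟩
    · rfl
  have hts : tsupport (fun r => if 0 < r then f r * k r else 0) ⊆ Icc a b :=
    closure_minimal hsupp isClosed_Icc
  refine ⟨fun r => if 0 < r then f r * k r else 0, ?_, ?_, ?_, ?_, ?_⟩
  · rw [continuous_iff_continuousAt]
    intro r
    rcases lt_or_ge 0 r with h | h
    · have h1 : (fun r => if 0 < r then f r * k r else 0) =ᶠ[𝓝 r] fun r => f r * k r := by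
        filter_upwards [lt_mem_nhds h] with y hy
        rw [if_pos hy]
      exact (continuousAt_congr h1).2 (((hf r h).mul (hk r h)).continuousAt (Ioi_mem_nhds h))
    · have h1 : (fun r => if 0 < r then f r * k r else 0) =ᶠ[𝓝 r] fun _ => (0 : ℝ) := by
        filter_upwards [gt_mem_nhds (lt_of_le_of_lt h ha)] with y hy
        split_ifs with h0
        · rw [hab y h0 (Or.inl hy), mul_zero]
        · rfl
      exact (continuousAt_congr h1).2 continuousAt_const
  · exact HasCompactSupport.of_support_subset_isCompact isCompact_Icc hsupp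
  · exact hts.trans (fun r hr => lt_of_lt_of_le ha hr.1)
  · intro r hr
    exact if_pos hr
  · intro r hr
    exact if_neg (not_lt.2 hr)

/-- divergence theorem for the field `k(r) F x/|x|` -/
theorem div_rad {k k1 : ℝ → ℝ} (h : RC k k1) {F : E3 → ℝ} (hF : ContDiffOn ℝ 1 F {x | x ≠ 0}) :
    ∫ x, ((k1 ‖x‖ + 2 * k ‖x‖ / ‖x‖) * F x + k ‖x‖ * ∑ i, x i / ‖x‖ * pd i F x) = 0 := by
  have hκ : RC (fun r => 1 / r * k r) (fun r => -(1 / r ^ 2) * k r + 1 / r * k1 r) :=
    h.mul c1_inv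
  have hg : ∀ i : Fin 3, Good (fun x => (F x * x i) * ((fun r => 1 / r * k r) ‖x‖)) := fun i =>
    Good.mul_left (hF.mul (EuclideanSpace.proj i : E3 →L[ℝ] ℝ).contDiff.contDiffOn) hκ.good
  have hsum : ∫ x, ∑ i, pd i (fun x => (F x * x i) * ((fun r => 1 / r * k r) ‖x‖)) x = 0 := by
    rw [integral_finsetSum _ (fun i _ => ((hg i).pd_goodC i).int)]
    exact Finset.sum_eq_zero fun i _ => (hg i).int_pd i
  rw [← hsum]
  apply integral_congr_ae
  filter_upwards [ae_ne0] with x hx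
  have h0 : 0 < ‖x‖ := norm_pos_iff.2 hx
  have hFd : DifferentiableAt ℝ F x :=
    ((hF x hx).contDiffAt (isOpen_ne0.mem_nhds hx)).differentiableAt (by norm_num)
  have hcd : ∀ i : Fin 3, DifferentiableAt ℝ (fun y : E3 => y i) x := fun i =>
    (EuclideanSpace.proj i : E3 →L[ℝ] ℝ).differentiableAt
  have hkd := (rad_der hx (hκ.c1.der _ h0)).differentiableAt
  have e : ∀ i, pd i (fun x => (F x * x i) * ((fun r => 1 / r * k r) ‖x‖)) x =
      F x * x i * ((-(1 / ‖x‖ ^ 2) * k ‖x‖ + 1 / ‖x‖ * k1 ‖x‖) * (x i / ‖x‖)) +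
        (F x + pd i F x * x i) * (1 / ‖x‖ * k ‖x‖) := by
    intro i
    have a1 := pd_mul' (f := fun y => F y * y i) (g := fun y => (fun r => 1 / r * k r) ‖y‖)
      (hFd.mul (hcd i)) hkd i
    have a2 := pd_mul' (f := F) (g := fun y => y i) hFd (hcd i) i
    have a3 := pd_rad' hx (hκ.c1.der _ h0) i
    rw [a1, a2, a3, pd_coord, mul_one]
  simp only [e]
  have h1 := sum_dir hx
  have hne : ‖x‖ ≠ 0 := h0.ne'
  simp only [Fin.sum_univ_three] at h1 ⊢
  have h2 : x 0 ^ 2 + x 1 ^ 2 + x 2 ^ 2 = ‖x‖ ^ 2 := by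
    have := h1
    field_simp at this
    linarith
  have h3 : F x * x 0 * ((-(1 / ‖x‖ ^ 2) * k ‖x‖ + 1 / ‖x‖ * k1 ‖x‖) * (x 0 / ‖x‖)) +
        (F x + pd 0 F x * x 0) * (1 / ‖x‖ * k ‖x‖) +
      (F x * x 1 * ((-(1 / ‖x‖ ^ 2) * k ‖x‖ + 1 / ‖x‖ * k1 ‖x‖) * (x 1 / ‖x‖)) +
        (F x + pd 1 F x * x 1) * (1 / ‖x‖ * k ‖x‖)) +
      (F x * x 2 * ((-(1 / ‖x‖ ^ 2) * k ‖x‖ + 1 / ‖x‖ * k1 ‖x‖) * (x 2 / ‖x‖)) +
        (F x + pd 2 F x * x 2) * (1 / ‖x‖ * k ‖x‖)) =
      F x * (-(1 / ‖x‖ ^ 2) * k ‖x‖ + 1 / ‖x‖ * k1 ‖x‖) * ((x 0 ^ 2 + x 1 ^ 2 + x 2 ^ 2) / ‖x‖) +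
      3 * F x * (1 / ‖x‖ * k ‖x‖) + k ‖x‖ * (x 0 / ‖x‖ * pd 0 F x + x 1 / ‖x‖ * pd 1 F x
        + x 2 / ‖x‖ * pd 2 F x) := by
    ring
  rw [h3, h2]
  field_simp
  ring

end Pool.Agent.H56.HN
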